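import Pool.Agent.E8helper15.FT.Stm

/-! Piece LB of the project FT: the bad primes of the Legendre curve. -/

set_option autoImplicit false

namespace Pool.Agent.E8helper85.FT

open NumberField IsDedekindDomain
open Pool.Agent.TH876.FH (GoodAt badNorm)
open Pool.Agent.E8helper15.FT

section

variable {K : Type} [Field K] [NumberField K]

lemma leg_disc (l : K) : (leg l).Δ = 16 * l ^ 2 * (1 - l) ^ 2 := by
  simp only [leg, WeierstrassCurve.Δ, WeierstrassCurve.b₂, WeierstrassCurve.b₄,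
    WeierstrassCurve.b₆, WeierstrassCurve.b₈]
  ring

lemma leg_c4 (l : K) : (leg l).c₄ = 16 * (l ^ 2 - l + 1) := by
  simp only [leg, WeierstrassCurve.c₄, WeierstrassCurve.b₂, WeierstrassCurve.b₄]
  ring

lemma one_le_norm (v : HeightOneSpectrum (𝓞 K)) : (1 : ℝ) ≤ (Ideal.absNorm v.asIdeal : ℝ) := by
  have h : Ideal.absNorm v.asIdeal ≠ 0 := by
    rw [Ne, Ideal.absNorm_eq_zero_iff]
    exact v.ne_bot
  exact_mod_cast Nat.one_le_iff_ne_zero.2 h

lemma log_finprod {s : Set (HeightOneSpectrum (𝓞 K))} (hs : s.Finite) :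
    Real.log (∏ᶠ v ∈ s, (Ideal.absNorm v.asIdeal : ℝ)) =
      ∑ v ∈ hs.toFinset, Real.log (Ideal.absNorm v.asIdeal) := by
  rw [finprod_mem_eq_finite_toFinset_prod _ hs, Real.log_prod]
  intro v _
  exact (lt_of_lt_of_le one_pos (one_le_norm v)).ne'

lemma good {l : K} {v : HeightOneSpectrum (𝓞 K)} (h2 : v.valuation K (2 : K) = 1)
    (hl : v.valuation K l = 1) (hl1 : v.valuation K (1 - l) = 1) : GoodAt v (leg l) := by
  refine ⟨1, ?_⟩
  rw [one_smul, leg_disc]
  refine ⟨?_, ?_, ?_, ?_, ?_, ?_⟩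
  · simp [leg]
  · change v.valuation K (-(1 + l)) ≤ 1
    rw [Valuation.map_neg]
    exact (Valuation.map_add _ _ _).trans (max_le (map_one _).le hl.le)
  · simp [leg]
  · exact hl.le
  · simp [leg]
  · have h16 : (16 : K) = 2 ^ 4 := by norm_num
    rw [h16, map_mul, map_mul, map_pow, map_pow, map_pow, h2, hl, hl1]
    simp

end

theorem t_LB (h : S_SUP) : S_LB := by
  classical
  intro K _ _
  have hB2 : {v : HeightOneSpectrum (𝓞 K) | v.valuation K (2 : K) ≠ 1}.Finite :=
    (h K 2 two_ne_zero).1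
  refine ⟨∑ v ∈ hB2.toFinset, Real.log (Ideal.absNorm v.asIdeal), fun l h0 h1 => ?_⟩
  have h1' : 1 - l ≠ 0 := sub_ne_zero.2 (Ne.symm h1)
  have hS : (Supp l).Finite :=
    ((h K l h0).1.union (h K (1 - l) h1').1).subset fun v hv => hv
  have hlog : ∀ v : HeightOneSpectrum (𝓞 K), 0 ≤ Real.log (Ideal.absNorm v.asIdeal) :=
    fun v => Real.log_nonneg (one_le_norm v)
  have hsub : {v : HeightOneSpectrum (𝓞 K) | ¬ GoodAt v (leg l)} ⊆
      Supp l ∪ {v : HeightOneSpectrum (𝓞 K) | v.valuation K (2 : K) ≠ 1} := by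
    intro v hv
    by_contra hcon
    rw [Set.mem_union, not_or] at hcon
    obtain ⟨hc1, hc2⟩ := hcon
    have hc2' : v.valuation K (2 : K) = 1 := not_not.1 hc2
    have hc3 : ¬ (v.valuation K l ≠ 1 ∨ v.valuation K (1 - l) ≠ 1) := hc1
    push Not at hc3
    exact hv (good hc2' hc3.1 hc3.2)
  have hbad : {v : HeightOneSpectrum (𝓞 K) | ¬ GoodAt v (leg l)}.Finite :=
    (hS.union hB2).subset hsub
  refine ⟨?_, ?_, ?_, ?_⟩
  · rw [leg_disc]
    exact mul_ne_zero (mul_ne_zero (by norm_num) (pow_ne_zero 2 h0)) (pow_ne_zero 2 h1')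
  · rw [leg_disc, leg_c4]
    field_simp
    ring
  · unfold badNorm lrad
    rw [log_finprod hbad, log_finprod hS]
    calc ∑ v ∈ hbad.toFinset, Real.log (Ideal.absNorm v.asIdeal)
        ≤ ∑ v ∈ hS.toFinset ∪ hB2.toFinset, Real.log (Ideal.absNorm v.asIdeal) := by
          refine Finset.sum_le_sum_of_subset_of_nonneg ?_ fun v _ _ => hlog v
          intro v hv
          rw [Set.Finite.mem_toFinset] at hv
          rw [Finset.mem_union, Set.Finite.mem_toFinset, Set.Finite.mem_toFinset]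
          exact hsub hv
      _ ≤ ∑ v ∈ hS.toFinset, Real.log (Ideal.absNorm v.asIdeal) +
          ∑ v ∈ hB2.toFinset, Real.log (Ideal.absNorm v.asIdeal) := by
          rw [← Finset.sum_union_inter]
          exact le_add_of_nonneg_right (Finset.sum_nonneg fun v _ => hlog v)
  · unfold lrad
    rw [log_finprod hS]
    exact Finset.sum_nonneg fun v _ => hlog v

end Pool.Agent.E8helper85.FT
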